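import Pool.Agent.K7.H50.MO.Cert

set_option autoImplicit false

/-!
# The kernel check of the certificate
-/

namespace Pool.Agent.K7.H50.MO

/-- the sum of the values of `f` at `0, …, n - 1` -/
def sumR (f : ℕ → ℕ) : ℕ → ℕ
  | 0 => 0
  | n + 1 => sumR f n + f n

/-- all values of `p` at `0, …, n - 1` are `true` -/
def allR (p : ℕ → Bool) : ℕ → Bool
  | 0 => true
  | n + 1 => p n && allR p n

theorem sumR_eq (f : ℕ → ℕ) (n : ℕ) : sumR f n = ∑ i ∈ Finset.range n, f i := by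
  induction n with
  | zero => rfl
  | succ n ih => rw [sumR, ih, Finset.sum_range_succ]

theorem allR_spec (p : ℕ → Bool) (n : ℕ) (h : allR p n = true) : ∀ i < n, p i = true := by
  induction n with
  | zero => intro i hi; omega
  | succ n ih =>
    rw [allR, Bool.and_eq_true] at h
    intro i hi
    rcases Nat.lt_succ_iff_lt_or_eq.mp hi with h1 | h1
    · exact ih h.2 i h1
    · rw [h1]; exact h.1

/-- the recurrence check at `n + 2` -/
def chk (n : ℕ) : Bool :=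
  Nat.beq ((n + 2) * g1 (n + 2)) (a1 (n + 2)) &&
  Nat.beq (2 * g1 (n + 2)) (b1 (n + 2)) &&
  Nat.beq ((n + 2) * g2 (n + 2))
    (a2 (n + 2) + sumR (fun s => a1 (s + 1) * g1 (n + 1 - s)) (n + 1)) &&
  Nat.beq (2 * g2 (n + 2))
    (b2 (n + 2) + sumR (fun s => b1 (s + 1) * g1 (n + 1 - s)) (n + 1)) &&
  Nat.beq ((n + 2) * g3 (n + 2))
    (a3 (n + 2) + sumR (fun s => a1 (s + 1) * g2 (n + 1 - s) + a2 (s + 1) * g1 (n + 1 - s)) (n + 1)) &&
  Nat.beq (2 * g3 (n + 2))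
    (b3 (n + 2) + sumR (fun s => b1 (s + 1) * g2 (n + 1 - s) + b2 (s + 1) * g1 (n + 1 - s)) (n + 1))

/-- the divisor sum of `t` at `n`, with a weight -/
def dv (w t : ℕ → ℕ) (n : ℕ) : ℕ :=
  sumR (fun b => bif Nat.beq (n % (b + 1)) 0 then w (b + 1) * t (b + 1) else 0) n

def chkD (n : ℕ) : Bool :=
  Nat.beq (a1 (n + 1)) (dv (fun b => b) t1 (n + 1)) &&
  Nat.beq (a2 (n + 1)) (dv (fun b => b) t2 (n + 1)) &&
  Nat.beq (a3 (n + 1)) (dv (fun b => b) t3 (n + 1)) &&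
  Nat.beq (b1 (n + 1)) (dv (fun _ => 1) t1 (n + 1)) &&
  Nat.beq (b2 (n + 1)) (dv (fun _ => 1) t2 (n + 1)) &&
  Nat.beq (b3 (n + 1)) (dv (fun _ => 1) t3 (n + 1))

set_option maxRecDepth 100000 in
theorem chk_true : allR chk 119 = true := by decide +kernel

set_option maxRecDepth 100000 in
theorem chkD_true : allR chkD 120 = true := by decide +kernel

theorem one_true : g1 1 = L ∧ g2 1 = 0 ∧ g3 1 = 0 ∧ t1 1 = L ∧ t2 1 = 0 ∧ t3 1 = 0 := by
  decide +kernel

theorem final_true : g2 120 ^ 2 < g1 120 * g3 120 := by decide +kernel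

end Pool.Agent.K7.H50.MO
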