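import Pool.Agent.K7.H68.MO.Defs
import Pool.Agent.K7.H50.MO.Check

set_option autoImplicit false

/-!
# Job 6: the numerical part
-/

open Finset Polynomial

namespace Pool.Agent.K7.H50.MO

/-- the pairs `(b, k)` with `k b ≤ n` are sorted by `s = k b` -/
theorem regroup {M : Type} [AddCommMonoid M] (n : ℕ) (F : ℕ → ℕ → M) :
    ∑ b ∈ Icc 1 n, ∑ k ∈ Icc 1 n with k * b ≤ n, F b (k * b) =
      ∑ s ∈ Icc 1 n, ∑ b ∈ s.divisors, F b s := by
  rw [Finset.sum_sigma', Finset.sum_sigma']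
  refine Finset.sum_bij' (fun x _ => ⟨x.2 * x.1, x.1⟩) (fun y _ => ⟨y.2, y.1 / y.2⟩) ?_ ?_ ?_ ?_ ?_
  · rintro ⟨b, k⟩ h
    simp only [mem_sigma, mem_Icc, mem_filter, Nat.mem_divisors] at h ⊢
    obtain ⟨⟨h1, h2⟩, ⟨h3, h4⟩, h5⟩ := h
    have : 0 < k * b := Nat.mul_pos h3 h1
    exact ⟨⟨this, h5⟩, Dvd.intro_left k rfl, this.ne'⟩
  · rintro ⟨s, b⟩ h
    simp only [mem_sigma, mem_Icc, mem_filter, Nat.mem_divisors] at h ⊢
    obtain ⟨⟨h1, h2⟩, h3, h4⟩ := h
    have hb : 0 < b := Nat.pos_of_dvd_of_pos h3 h1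
    have hbs : b ≤ s := Nat.le_of_dvd h1 h3
    refine ⟨⟨hb, hbs.trans h2⟩, ⟨Nat.div_pos hbs hb, (Nat.div_le_self s b).trans h2⟩, ?_⟩
    rw [Nat.div_mul_cancel h3]
    exact h2
  · rintro ⟨b, k⟩ h
    simp only [mem_sigma, mem_Icc, mem_filter] at h
    simp only [Sigma.mk.injEq, heq_eq_eq, true_and]
    exact Nat.mul_div_cancel k h.1.1
  · rintro ⟨s, b⟩ h
    simp only [mem_sigma, mem_Icc, Nat.mem_divisors] at h
    simp only [Sigma.mk.injEq, heq_eq_eq, and_true]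
    exact Nat.div_mul_cancel h.2.1
  · rintro ⟨b, k⟩ h
    rfl

/-- truncation modulo `X ^ 4` of a polynomial without constant term, scaled -/
structure Tr (p : ℚ[X]) (u v w : ℕ) : Prop where
  c0 : p.coeff 0 = 0
  c1 : p.coeff 1 * (L : ℚ) = u
  c2 : p.coeff 2 * (L : ℚ) ^ 2 = v
  c3 : p.coeff 3 * (L : ℚ) ^ 3 = w

theorem coeff_mul' (p q : ℚ[X]) (hp : p.coeff 0 = 0) (hq : q.coeff 0 = 0) :
    (p * q).coeff 0 = 0 ∧ (p * q).coeff 1 = 0 ∧ (p * q).coeff 2 = p.coeff 1 * q.coeff 1 ∧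
      (p * q).coeff 3 = p.coeff 1 * q.coeff 2 + p.coeff 2 * q.coeff 1 := by
  refine ⟨?_, ?_, ?_, ?_⟩
  · simp [mul_coeff_zero, hp]
  · simp [mul_coeff_one, hp, hq]
  · rw [coeff_mul]
    have : antidiagonal 2 = {(0, 2), (1, 1), (2, 0)} := by decide
    rw [this]
    simp [hp, hq]
  · rw [coeff_mul]
    have : antidiagonal 3 = {(0, 3), (1, 2), (2, 1), (3, 0)} := by decide
    rw [this]
    simp [hp, hq]

theorem Tr.mul {p q : ℚ[X]} {u v w u' v' w' : ℕ} (hp : Tr p u v w) (hq : Tr q u' v' w') :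
    Tr (p * q) 0 (u * u') (u * v' + v * u') := by
  obtain ⟨h0, h1, h2, h3⟩ := coeff_mul' p q hp.c0 hq.c0
  refine ⟨h0, by rw [h1]; simp, ?_, ?_⟩
  · rw [h2, Nat.cast_mul, ← hp.c1, ← hq.c1]; ring
  · rw [h3]; push_cast; rw [← hp.c1, ← hq.c1, ← hp.c2, ← hq.c2]; ring

theorem Tr.add {p q : ℚ[X]} {u v w u' v' w' : ℕ} (hp : Tr p u v w) (hq : Tr q u' v' w') :
    Tr (p + q) (u + u') (v + v') (w + w') := by
  refine ⟨by rw [coeff_add, hp.c0, hq.c0, add_zero], ?_, ?_, ?_⟩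
  · rw [coeff_add, add_mul, hp.c1, hq.c1]; push_cast; ring
  · rw [coeff_add, add_mul, hp.c2, hq.c2]; push_cast; ring
  · rw [coeff_add, add_mul, hp.c3, hq.c3]; push_cast; ring

theorem Tr.smul {p : ℚ[X]} {u v w : ℕ} (hp : Tr p u v w) (c : ℕ) :
    Tr ((c : ℚ) • p) (c * u) (c * v) (c * w) := by
  refine ⟨by rw [coeff_smul, hp.c0, smul_zero], ?_, ?_, ?_⟩
  · rw [coeff_smul, smul_eq_mul, mul_assoc, hp.c1]; push_cast; ring
  · rw [coeff_smul, smul_eq_mul, mul_assoc, hp.c2]; push_cast; ring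
  · rw [coeff_smul, smul_eq_mul, mul_assoc, hp.c3]; push_cast; ring

theorem Tr.zero : Tr 0 0 0 0 := by
  refine ⟨?_, ?_, ?_, ?_⟩ <;> simp

theorem Tr.sum {ι : Type} (s : Finset ι) (p : ι → ℚ[X]) (u v w : ι → ℕ)
    (h : ∀ i ∈ s, Tr (p i) (u i) (v i) (w i)) :
    Tr (∑ i ∈ s, p i) (∑ i ∈ s, u i) (∑ i ∈ s, v i) (∑ i ∈ s, w i) := by
  classical
  induction s using Finset.induction_on with
  | empty => simpa using Tr.zero
  | insert a s ha ih =>
    rw [sum_insert ha, sum_insert ha, sum_insert ha, sum_insert ha]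
    exact (h a (mem_insert_self a s)).add (ih fun i hi => h i (mem_insert_of_mem hi))

theorem chk_spec (n : ℕ) (h2 : 2 ≤ n) (hn : n ≤ 120) :
    n * g1 n = a1 n ∧ 2 * g1 n = b1 n ∧
    n * g2 n = a2 n + ∑ s ∈ range (n - 1), a1 (s + 1) * g1 (n - (s + 1)) ∧
    2 * g2 n = b2 n + ∑ s ∈ range (n - 1), b1 (s + 1) * g1 (n - (s + 1)) ∧
    n * g3 n = a3 n + ∑ s ∈ range (n - 1),
      (a1 (s + 1) * g2 (n - (s + 1)) + a2 (s + 1) * g1 (n - (s + 1))) ∧
    2 * g3 n = b3 n + ∑ s ∈ range (n - 1),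
      (b1 (s + 1) * g2 (n - (s + 1)) + b2 (s + 1) * g1 (n - (s + 1))) := by
  obtain ⟨m, rfl⟩ : ∃ m, n = m + 2 := ⟨n - 2, by omega⟩
  have h := allR_spec chk 119 chk_true m (by omega)
  simp only [chk, Bool.and_eq_true, Nat.beq_eq, sumR_eq] at h
  obtain ⟨⟨⟨⟨⟨h1, h2⟩, h3⟩, h4⟩, h5⟩, h6⟩ := h
  have e : ∀ s, m + 2 - (s + 1) = m + 1 - s := fun s => by omega
  simp only [e]
  exact ⟨h1, h2, h3, h4, h5, h6⟩

theorem dv_eq (w t : ℕ → ℕ) (n : ℕ) (hn : 1 ≤ n) : dv w t n = ∑ b ∈ n.divisors, w b * t b := by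
  have e : n.divisors = ((range n).map ⟨fun b => b + 1, fun _ _ h => by simpa using h⟩).filter
      (fun b => n % b = 0) := by
    ext b
    simp only [Nat.mem_divisors, mem_filter, mem_map, mem_range, Function.Embedding.coeFn_mk]
    constructor
    · rintro ⟨h1, h2⟩
      have hb : 0 < b := Nat.pos_of_dvd_of_pos h1 hn
      have hbs : b ≤ n := Nat.le_of_dvd hn h1
      exact ⟨⟨b - 1, by omega, by omega⟩, Nat.mod_eq_zero_of_dvd h1⟩
    · rintro ⟨⟨c, hc, rfl⟩, h⟩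
      exact ⟨Nat.dvd_of_mod_eq_zero h, by omega⟩
  rw [e, sum_filter, sum_map, dv, sumR_eq]
  refine sum_congr rfl fun b _ => ?_
  simp only [Function.Embedding.coeFn_mk]
  by_cases hb : n % (b + 1) = 0
  · simp [hb]
  · have : Nat.beq (n % (b + 1)) 0 = false := by
      rw [Bool.eq_false_iff]; intro h; exact hb (Nat.eq_of_beq_eq_true h)
    simp [hb, this]

theorem chkD_spec (n : ℕ) (h1 : 1 ≤ n) (hn : n ≤ 120) :
    a1 n = ∑ b ∈ n.divisors, b * t1 b ∧ a2 n = ∑ b ∈ n.divisors, b * t2 b ∧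
    a3 n = ∑ b ∈ n.divisors, b * t3 b ∧ b1 n = ∑ b ∈ n.divisors, 1 * t1 b ∧
    b2 n = ∑ b ∈ n.divisors, 1 * t2 b ∧ b3 n = ∑ b ∈ n.divisors, 1 * t3 b := by
  obtain ⟨m, rfl⟩ : ∃ m, n = m + 1 := ⟨n - 1, by omega⟩
  have h := allR_spec chkD 120 chkD_true m (by omega)
  simp only [chkD, Bool.and_eq_true, Nat.beq_eq, dv_eq _ _ (m + 1) h1] at h
  obtain ⟨⟨⟨⟨⟨h1, h2⟩, h3⟩, h4⟩, h5⟩, h6⟩ := h
  exact ⟨h1, h2, h3, h4, h5, h6⟩

theorem sum_Icc_last {M : Type} [AddCommMonoid M] (n : ℕ) (h : 1 ≤ n) (f : ℕ → M) :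
    ∑ s ∈ Icc 1 n, f s = f n + ∑ s ∈ range (n - 1), f (s + 1) := by
  obtain ⟨m, rfl⟩ : ∃ m, n = m + 1 := ⟨n - 1, by omega⟩
  rw [show Icc 1 (m + 1) = Ico 1 (m + 1 + 1) from rfl, Finset.sum_Ico_eq_sum_range,
    show m + 1 + 1 - 1 = m + 1 by omega, sum_range_succ, show m + 1 - 1 = m by omega, add_comm,
    add_comm 1 m]
  congr 1
  exact sum_congr rfl fun s _ => by rw [add_comm 1 s]

variable (G T : ℕ → ℚ[X])

/-- divisor sums -/
noncomputable def sA (s : ℕ) : ℚ[X] := ∑ b ∈ s.divisors, (b : ℚ) • T b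
noncomputable def sB (s : ℕ) : ℚ[X] := ∑ b ∈ s.divisors, ((1 : ℕ) : ℚ) • T b

theorem main
    (hA : ∀ n : ℕ, 1 ≤ n → (n : ℚ) • G n = ∑ b ∈ Icc 1 n, ∑ k ∈ Icc 1 n with k * b ≤ n,
      (b : ℚ) • (T b * G (n - k * b)))
    (hB : ∀ n : ℕ, 2 ≤ n → (2 : ℚ) • G n = ∑ b ∈ Icc 1 n, ∑ k ∈ Icc 1 n with k * b ≤ n,
      T b * G (n - k * b)) (h0 : G 0 = 1) (h1 : G 1 = X) (h1' : T 1 = X)
    (n : ℕ) (hn : 1 ≤ n) (hn' : n ≤ 120) :
    Tr (G n) (g1 n) (g2 n) (g3 n) ∧ Tr (T n) (t1 n) (t2 n) (t3 n) := by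
  induction n using Nat.strong_induction_on with
  | _ n ih =>
    rcases Nat.lt_or_ge n 2 with h2 | h2
    · obtain rfl : n = 1 := by omega
      obtain ⟨e1, e2, e3, e4, e5, e6⟩ := one_true
      rw [h1, h1', e1, e2, e3, e4, e5, e6]
      have : Tr (X : ℚ[X]) L 0 0 := by
        refine ⟨by simp, by simp, ?_, ?_⟩
        · rw [coeff_X]; norm_num
        · rw [coeff_X]; norm_num
      exact ⟨this, this⟩
    -- the regrouped identities
    have hA' : (n : ℚ) • G n = sA T n + ∑ s ∈ range (n - 1), sA T (s + 1) * G (n - (s + 1)) := by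
      rw [hA n hn, regroup n (fun b s => (b : ℚ) • (T b * G (n - s))), sum_Icc_last n hn]
      congr 1
      · rw [sA]
        refine sum_congr rfl fun b _ => ?_
        rw [Nat.sub_self, h0, mul_one]
      · refine sum_congr rfl fun s _ => ?_
        rw [sA, sum_mul]
        refine sum_congr rfl fun b _ => ?_
        rw [smul_mul_assoc]
    have hB' : (2 : ℚ) • G n = sB T n + ∑ s ∈ range (n - 1), sB T (s + 1) * G (n - (s + 1)) := by
      rw [hB n h2, regroup n (fun b s => (T b * G (n - s))), sum_Icc_last n hn]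
      congr 1
      · rw [sB]
        refine sum_congr rfl fun b _ => ?_
        rw [Nat.sub_self, h0, mul_one, Nat.cast_one, one_smul]
      · refine sum_congr rfl fun s _ => ?_
        rw [sB, sum_mul]
        refine sum_congr rfl fun b _ => ?_
        rw [Nat.cast_one, one_smul]
    have tA : ∀ s, 1 ≤ s → s < n → Tr (sA T s) (a1 s) (a2 s) (a3 s) := by
      intro s hs hsn
      obtain ⟨e1, e2, e3, -, -, -⟩ := chkD_spec s hs (by omega)
      rw [e1, e2, e3]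
      refine Tr.sum _ _ _ _ _ fun b hb => ?_
      have hb' := Nat.mem_divisors.mp hb
      have hb0 : 0 < b := Nat.pos_of_dvd_of_pos hb'.1 hs
      have hbs : b ≤ s := Nat.le_of_dvd hs hb'.1
      exact (ih b (by omega) hb0 (by omega)).2.smul b
    have tB : ∀ s, 1 ≤ s → s < n → Tr (sB T s) (b1 s) (b2 s) (b3 s) := by
      intro s hs hsn
      obtain ⟨-, -, -, e1, e2, e3⟩ := chkD_spec s hs (by omega)
      rw [e1, e2, e3]
      refine Tr.sum _ _ _ _ _ fun b hb => ?_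
      have hb' := Nat.mem_divisors.mp hb
      have hb0 : 0 < b := Nat.pos_of_dvd_of_pos hb'.1 hs
      have hbs : b ≤ s := Nat.le_of_dvd hs hb'.1
      exact (ih b (by omega) hb0 (by omega)).2.smul 1
    have hdiv : n.divisors = insert n n.properDivisors := (Nat.insert_self_properDivisors (by omega)).symm
    have hnd : n ∉ n.properDivisors := Nat.self_notMem_properDivisors
    -- proper divisor part
    set pA : ℚ[X] := ∑ b ∈ n.properDivisors, (b : ℚ) • T b with hpA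
    set pB : ℚ[X] := ∑ b ∈ n.properDivisors, ((1 : ℕ) : ℚ) • T b with hpB
    have qA : sA T n = (n : ℚ) • T n + pA := by rw [sA, hdiv, sum_insert hnd]
    have qB : sB T n = T n + pB := by
      rw [sB, hdiv, sum_insert hnd, hpB]
      congr 1
      rw [Nat.cast_one, one_smul]
    have hpr : ∀ b ∈ n.properDivisors, Tr (T b) (t1 b) (t2 b) (t3 b) := by
      intro b hb
      have hb' := Nat.mem_properDivisors.mp hb
      have hb0 : 0 < b := Nat.pos_of_dvd_of_pos hb'.1 hn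
      exact (ih b hb'.2 hb0 (by omega)).2
    have tpA : Tr pA (∑ b ∈ n.properDivisors, b * t1 b) (∑ b ∈ n.properDivisors, b * t2 b)
        (∑ b ∈ n.properDivisors, b * t3 b) :=
      Tr.sum _ _ _ _ _ fun b hb => (hpr b hb).smul b
    have tpB : Tr pB (∑ b ∈ n.properDivisors, 1 * t1 b) (∑ b ∈ n.properDivisors, 1 * t2 b)
        (∑ b ∈ n.properDivisors, 1 * t3 b) :=
      Tr.sum _ _ _ _ _ fun b hb => (hpr b hb).smul 1
    have tcA := Tr.sum (range (n - 1)) (fun s => sA T (s + 1) * G (n - (s + 1))) _ _ _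
      fun s hs => (tA (s + 1) (by omega) (by have := mem_range.mp hs; omega)).mul
        (ih (n - (s + 1)) (by omega) (by have := mem_range.mp hs; omega) (by omega)).1
    have tcB := Tr.sum (range (n - 1)) (fun s => sB T (s + 1) * G (n - (s + 1))) _ _ _
      fun s hs => (tB (s + 1) (by omega) (by have := mem_range.mp hs; omega)).mul
        (ih (n - (s + 1)) (by omega) (by have := mem_range.mp hs; omega) (by omega)).1
    have RA := tpA.add tcA
    have RB := tpB.add tcB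
    rw [qA, add_assoc] at hA'
    rw [qB, add_assoc] at hB'
    set rA := pA + ∑ s ∈ range (n - 1), sA T (s + 1) * G (n - (s + 1)) with hrA
    set rB := pB + ∑ s ∈ range (n - 1), sB T (s + 1) * G (n - (s + 1)) with hrB
    obtain ⟨c1, c2, c3, c4, c5, c6⟩ := chk_spec n h2 hn'
    obtain ⟨d1, d2, d3, d4, d5, d6⟩ := chkD_spec n hn hn'
    rw [hdiv, sum_insert hnd] at d1 d2 d3 d4 d5 d6
    have kA : ∀ i, (n : ℚ) * (G n).coeff i = n * (T n).coeff i + rA.coeff i := by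
      intro i
      have := congrArg (fun p => p.coeff i) hA'
      simpa only [coeff_smul, coeff_add, smul_eq_mul] using this
    have kB : ∀ i, (2 : ℚ) * (G n).coeff i = (T n).coeff i + rB.coeff i := by
      intro i
      have := congrArg (fun p => p.coeff i) hB'
      simpa only [coeff_smul, coeff_add, smul_eq_mul] using this
    have hn0 : (n : ℚ) ≠ 0 := by
      have : n ≠ 0 := by omega
      exact_mod_cast this
    -- linear algebra for one coefficient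
    have lin : ∀ (x y rx ry l : ℚ) (g t qa qb : ℕ), (n : ℚ) * x = n * y + rx → 2 * x = y + ry →
        rx * l = qa → ry * l = qb → n * g = n * t + qa → 2 * g = t + qb → x * l = g ∧ y * l = t := by
      intro x y rx ry l g t qa qb e1 e2 e3 e4 e5 e6
      have f5 : (n : ℚ) * g = n * t + qa := by exact_mod_cast e5
      have f6 : (2 : ℚ) * g = t + qb := by exact_mod_cast e6
      have k1 : (n : ℚ) * (x * l - g) = n * (y * l - t) := by
        linear_combination l * e1 + e3 - f5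
      have k1' : x * l - g = y * l - t := mul_left_cancel₀ hn0 k1
      have k2 : 2 * (x * l - g) = y * l - t := by
        linear_combination l * e2 + e4 - f6
      constructor
      · linarith
      · linarith
    have z := lin ((G n).coeff 0) ((T n).coeff 0) (rA.coeff 0) (rB.coeff 0) 1 0 0 0 0 (kA 0) (kB 0)
      (by rw [RA.c0]; simp) (by rw [RB.c0]; simp) (by simp) (by simp)
    have o1 := lin ((G n).coeff 1) ((T n).coeff 1) (rA.coeff 1) (rB.coeff 1) L (g1 n) (t1 n) _ _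
      (kA 1) (kB 1) RA.c1 RB.c1 (by simp only [sum_const_zero, add_zero]; rw [c1, d1])
      (by simp only [sum_const_zero, add_zero]; rw [c2, d4, one_mul])
    have o2 := lin ((G n).coeff 2) ((T n).coeff 2) (rA.coeff 2) (rB.coeff 2) (L ^ 2) (g2 n) (t2 n) _ _
      (kA 2) (kB 2) RA.c2 RB.c2 (by rw [c3, d2]; ring)
      (by rw [c4, d5]; ring)
    have o3 := lin ((G n).coeff 3) ((T n).coeff 3) (rA.coeff 3) (rB.coeff 3) (L ^ 3) (g3 n) (t3 n) _ _
      (kA 3) (kB 3) RA.c3 RB.c3 (by rw [c5, d3]; ring)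
      (by rw [c6, d6]; ring)
    refine ⟨⟨?_, o1.1, o2.1, o3.1⟩, ⟨?_, o1.2, o2.2, o3.2⟩⟩
    · simpa using z.1
    · simpa using z.2

theorem L_pos : (0 : ℚ) < L := by
  have : 0 < L := by unfold L; norm_num
  exact_mod_cast this

theorem job6 : Pool.Agent.K7.H68.MO.Job6 := by
  intro G T hA hB h0 h1 h1'
  have h := (main G T hA hB h0 h1 h1' 120 (by norm_num) le_rfl).1
  have hL := L_pos
  have f : ((g2 120 : ℕ) : ℚ) ^ 2 < g1 120 * g3 120 := by exact_mod_cast final_true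
  rw [← h.c1, ← h.c2, ← h.c3] at f
  have : ((G 120).coeff 2 ^ 2) * (L : ℚ) ^ 4 < ((G 120).coeff 1 * (G 120).coeff 3) * (L : ℚ) ^ 4 := by
    calc ((G 120).coeff 2 ^ 2) * (L : ℚ) ^ 4 = ((G 120).coeff 2 * (L : ℚ) ^ 2) ^ 2 := by ring
      _ < _ := f
      _ = _ := by ring
  exact lt_of_mul_lt_mul_right this (by positivity)

end Pool.Agent.K7.H50.MO
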